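import Pool.Agent.H42.FibreFamily

/-!
For every field `K` of positive characteristic `p` and every `c ≥ 1` there is a finitely generated
graded FI-module over `(X^{FI,1})^{⊗ c}` whose width `n` component has Castelnuovo-Mumford
regularity `1` if `n ≡ 1 mod p` and `0` otherwise, so that its regularity is not eventually a
linear function of `n`.
-/

namespace Pool.Agent.Results.MP_9ec07c_ag.FICounterexample

open Pool.Agent.H42

universe u

theorem result (K : Type u) [Field K] (p : ℕ) [Fact p.Prime] [CharP K p] (c : ℕ)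
    (hc : 1 ≤ c) :
    ∃ M : FIModule K c, M.FinitelyGenerated ∧
      (∀ n : ℕ, 1 ≤ n → HasRegularity (M.comp n) (if p ∣ n - 1 then 1 else 0)) ∧
      ¬ ∃ a b : ℤ, ∀ᶠ n : ℕ in Filter.atTop, HasRegularity (M.comp n) (a * n + b) := by
  have hA : ∀ {m n : ℕ} (ε : Fin m ↪ Fin n), Compat (offA K) ε := fun ε => offA_compat K ε
  have hreg : ∀ n : ℕ, 1 ≤ n →
      HasRegularity ((fibFI c (offA K) hA).comp n) (if p ∣ n - 1 then 1 else 0) := by
    intro n hn
    have hfg := fib_fg c (offA K) (n := n) (fun j => hA ⟨fun _ : Fin 1 => j,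
      Function.injective_of_subsingleton _⟩)
    have h := fib_regularity c (offA K) hc hn hfg
    have hcast : ((n - 1 : ℕ) : K) = (n : K) - 1 := by
      rw [Nat.cast_sub hn, Nat.cast_one]
    by_cases hd : p ∣ n - 1
    · rw [if_pos hd]
      apply h.2 (off_not_surj K hn ?_)
      rw [← hcast, CharP.cast_eq_zero_iff K p]
      exact hd
    · rw [if_neg hd]
      apply h.1 (off_surj K ?_)
      rw [← hcast]
      intro h0
      rw [CharP.cast_eq_zero_iff K p] at h0
      exact hd h0
  refine ⟨fibFI c (offA K) hA, fibFI_fg c (offA K) hA, hreg, ?_⟩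
  rintro ⟨a, b, hab⟩
  rw [Filter.eventually_atTop] at hab
  obtain ⟨N, hN⟩ := hab
  have hp : 2 ≤ p := (Fact.out : p.Prime).two_le
  have hbig : N ≤ p * (N + 1) := by nlinarith
  have e1 := (hN (p * (N + 1) + 1) (by omega)).unique (hreg (p * (N + 1) + 1) (by omega))
  have e2 := (hN (p * (N + 1) + 2) (by omega)).unique (hreg (p * (N + 1) + 2) (by omega))
  have e3 := (hN (p * (N + 2) + 1) (by nlinarith)).unique (hreg (p * (N + 2) + 1) (by omega))
  have h1 : p ∣ p * (N + 1) + 1 - 1 := by simp
  have h2 : ¬ p ∣ p * (N + 1) + 2 - 1 := by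
    have : p * (N + 1) + 2 - 1 = p * (N + 1) + 1 := by omega
    rw [this]
    intro h
    have h3 : p ∣ 1 := (Nat.dvd_add_right (Dvd.intro _ rfl)).1 h
    have := Nat.le_of_dvd one_pos h3
    omega
  have h3 : p ∣ p * (N + 2) + 1 - 1 := by simp
  rw [if_pos h1] at e1
  rw [if_neg h2] at e2
  rw [if_pos h3] at e3
  push_cast at e1 e2 e3
  have hp' : (2 : ℤ) ≤ p := by exact_mod_cast hp
  nlinarith

end Pool.Agent.Results.MP_9ec07c_ag.FICounterexample
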