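import Pool.Agent.H42.FibreFamily

/-!
For every field `K` and every `c ≥ 1` there is a finitely generated graded OI-module over
`(X^{OI,1})^{⊗ c}` whose width `n` component has Castelnuovo-Mumford regularity `0` for `n` even
and `1` for `n` odd, so that its regularity is not eventually a linear function of `n`.
-/

namespace Pool.Agent.Results.MP_9ec07c_ag.OICounterexample

open Pool.Agent.H42

universe u

theorem result (K : Type u) [Field K] (c : ℕ) (hc : 1 ≤ c) :
    ∃ M : OIModule K c, M.FinitelyGenerated ∧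
      (∀ n : ℕ, 1 ≤ n → HasRegularity (M.comp n) (if Even n then 0 else 1)) ∧
      ¬ ∃ a b : ℤ, ∀ᶠ n : ℕ in Filter.atTop, HasRegularity (M.comp n) (a * n + b) := by
  have hA : ∀ {m n : ℕ} (ε : Fin m ↪o Fin n), Compat (skewA K) ε := fun ε => skewA_compat K ε
  have hreg : ∀ n : ℕ, 1 ≤ n →
      HasRegularity ((fibOI c (skewA K) hA).comp n) (if Even n then 0 else 1) := by
    intro n hn
    have hfg := fib_fg c (skewA K) (n := n) (fun j => hA (OrderEmbedding.ofStrictMono
      (fun _ : Fin 1 => j) (fun a b hab => absurd (Subsingleton.elim a b) (ne_of_lt hab))))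
    have h := fib_regularity c (skewA K) hc hn hfg
    by_cases he : Even n
    · rw [if_pos he]; exact h.1 (skew_surj K he)
    · rw [if_neg he]; exact h.2 (skew_not_surj K he)
  refine ⟨fibOI c (skewA K) hA, fibOI_fg c (skewA K) hA, hreg, ?_⟩
  rintro ⟨a, b, hab⟩
  rw [Filter.eventually_atTop] at hab
  obtain ⟨N, hN⟩ := hab
  have e1 := (hN (2 * (N + 1)) (by omega)).unique (hreg (2 * (N + 1)) (by omega))
  have e2 := (hN (2 * (N + 1) + 1) (by omega)).unique (hreg (2 * (N + 1) + 1) (by omega))
  have e3 := (hN (2 * (N + 1) + 2) (by omega)).unique (hreg (2 * (N + 1) + 2) (by omega))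
  have h1 : Even (2 * (N + 1)) := even_two_mul _
  have h2 : ¬ Even (2 * (N + 1) + 1) := by
    rw [Nat.even_add_one]; simpa using h1
  have h3 : Even (2 * (N + 1) + 2) := by
    rw [Nat.even_add]; simp
  rw [if_pos h1] at e1
  rw [if_neg h2] at e2
  rw [if_pos h3] at e3
  push_cast at e1 e2 e3
  linarith

end Pool.Agent.Results.MP_9ec07c_ag.OICounterexample
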